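import Pool.Agent.Helper88.LG.Goals
import Pool.Agent.Helper75.Tot.M1

/-!
# Upper bound for the number of smooth numbers (Rankin's method with a multiplicative weight)
-/

set_option autoImplicit false

open Finset Filter Topology

open scoped Classical

namespace Pool.Agent.Helper31.LG

open Pool.Agent.Helper88.LG

lemma sum_dvd (F : ℕ → ℝ) (p : ℕ) (hp : 0 < p) (hF : ∀ n, ¬ p ∣ n → F n = 0) (N : ℕ) :
    ∑ n ∈ Icc 1 N, F n = ∑ m ∈ Icc 1 (N / p), F (p * m) := by
  have h1 : ∑ m ∈ Icc 1 (N / p), F (p * m) = ∑ n ∈ (Icc 1 (N / p)).image (fun m => p * m), F n := by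
    rw [Finset.sum_image]
    intro a _ b _ h
    exact Nat.eq_of_mul_eq_mul_left hp h
  rw [h1]
  symm
  apply Finset.sum_subset
  · intro n hn
    rw [Finset.mem_image] at hn
    obtain ⟨m, hm, rfl⟩ := hn
    rw [Finset.mem_Icc] at hm ⊢
    refine ⟨Nat.mul_pos hp hm.1, ?_⟩
    calc p * m ≤ p * (N / p) := Nat.mul_le_mul_left _ hm.2
      _ ≤ N := Nat.mul_div_le N p
  · intro n hn hn2
    apply hF
    rintro ⟨m, rfl⟩
    apply hn2
    rw [Finset.mem_image]
    rw [Finset.mem_Icc] at hn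
    refine ⟨m, ?_, rfl⟩
    rw [Finset.mem_Icc]
    refine ⟨Nat.pos_of_ne_zero (fun h => by subst h; simp at hn), ?_⟩
    rw [Nat.le_div_iff_mul_le hp]
    linarith [hn.2, Nat.mul_comm p m]

/-- one step of the induction -/
lemma step (p : ℕ) (hp : p.Prime) (g : ℕ → ℝ) (q B E : ℝ) (hB : 0 ≤ B) (hE : 0 ≤ E) (hq : 1 ≤ q)
    (hEq : q * E + q - 1 = p * E)
    (hg : ∀ m, g (p * m) = g m) (hT : ∀ N : ℕ, ∑ n ∈ Icc 1 N, g n ≤ B * N) (N : ℕ) :
    ∑ n ∈ Icc 1 N, q ^ (n.factorization p) * g n ≤ B * N * (1 + E) := by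
  have key : ∀ N : ℕ, ∑ n ∈ Icc 1 N, (q ^ (n.factorization p) * g n - g n) ≤ B * N * E := by
    intro N
    induction N using Nat.strong_induction_on with
    | _ N ih =>
      rcases Nat.eq_zero_or_pos N with h0 | hN
      · subst h0; simp
      · have h1 : ∑ n ∈ Icc 1 N, (q ^ (n.factorization p) * g n - g n)
            = ∑ m ∈ Icc 1 (N / p), (q ^ ((p * m).factorization p) * g (p * m) - g (p * m)) := by
          apply sum_dvd (fun n => q ^ (n.factorization p) * g n - g n) p hp.pos
          intro n hn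
          simp [Nat.factorization_eq_zero_of_not_dvd hn]
        have h2 : ∑ m ∈ Icc 1 (N / p), (q ^ ((p * m).factorization p) * g (p * m) - g (p * m))
            = q * ∑ m ∈ Icc 1 (N / p), (q ^ (m.factorization p) * g m - g m)
              + (q - 1) * ∑ m ∈ Icc 1 (N / p), g m := by
          rw [Finset.mul_sum, Finset.mul_sum, ← Finset.sum_add_distrib]
          apply Finset.sum_congr rfl
          intro m hm
          rw [Finset.mem_Icc] at hm
          have hm0 : m ≠ 0 := by omega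
          rw [Nat.factorization_mul hp.ne_zero hm0, hg m]
          simp only [Finsupp.coe_add, Pi.add_apply, hp.factorization_self]
          rw [pow_add]
          ring
        rw [h1, h2]
        have h3 := ih (N / p) (Nat.div_lt_self hN hp.one_lt)
        have h4 := hT (N / p)
        have h5 : ((N / p : ℕ) : ℝ) ≤ (N : ℝ) / p := Nat.cast_div_le
        have hp0 : (0 : ℝ) < p := by exact_mod_cast hp.pos
        have h6 : q * ∑ m ∈ Icc 1 (N / p), (q ^ (m.factorization p) * g m - g m)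
            ≤ q * (B * ((N : ℝ) / p) * E) := by
          apply mul_le_mul_of_nonneg_left _ (by linarith)
          refine h3.trans ?_
          apply mul_le_mul_of_nonneg_right _ hE
          exact mul_le_mul_of_nonneg_left h5 hB
        have h7 : (q - 1) * ∑ m ∈ Icc 1 (N / p), g m ≤ (q - 1) * (B * ((N : ℝ) / p)) := by
          apply mul_le_mul_of_nonneg_left _ (by linarith)
          exact h4.trans (mul_le_mul_of_nonneg_left h5 hB)
        calc _ ≤ q * (B * ((N : ℝ) / p) * E) + (q - 1) * (B * ((N : ℝ) / p)) := add_le_add h6 h7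
          _ = (B * ((N : ℝ) / p)) * (q * E + q - 1) := by ring
          _ = B * N * E := by rw [hEq]; field_simp
  have h := key N
  rw [Finset.sum_sub_distrib] at h
  have h2 := hT N
  linarith

/-- the multiplicative weight -/
noncomputable def G (b : ℝ) (s : Finset ℕ) (n : ℕ) : ℝ :=
  ∏ p ∈ s, ((p : ℝ) ^ b) ^ (n.factorization p)

/-- the local factor -/
noncomputable def E (b : ℝ) (p : ℕ) : ℝ := ((p : ℝ) ^ b - 1) / (p - (p : ℝ) ^ b)

lemma rpow_le_sq (b : ℝ) (hb : b ≤ 1 / 2) (p : ℕ) (hp : 2 ≤ p) :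
    (p : ℝ) ^ b ≤ 3 / 4 * p := by
  have hp1 : (2 : ℝ) ≤ p := by exact_mod_cast hp
  calc (p : ℝ) ^ b ≤ (p : ℝ) ^ (1 / 2 : ℝ) := Real.rpow_le_rpow_of_exponent_le (by linarith) hb
    _ = Real.sqrt p := by rw [Real.sqrt_eq_rpow]
    _ ≤ 3 / 4 * p := by
      rw [Real.sqrt_le_left (by positivity)]
      nlinarith

lemma one_le_rpow' (b : ℝ) (hb : 0 ≤ b) (p : ℕ) (hp : 2 ≤ p) : 1 ≤ (p : ℝ) ^ b := by
  have hp1 : (2 : ℝ) ≤ p := by exact_mod_cast hp
  exact Real.one_le_rpow (by linarith) hb

lemma E_nonneg (b : ℝ) (hb0 : 0 ≤ b) (hb : b ≤ 1 / 2) (p : ℕ) (hp : 2 ≤ p) : 0 ≤ E b p := by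
  have hp1 : (2 : ℝ) ≤ p := by exact_mod_cast hp
  have h1 := rpow_le_sq b hb p hp
  have h2 := one_le_rpow' b hb0 p hp
  unfold E
  apply div_nonneg <;> linarith

lemma E_le (b : ℝ) (hb0 : 0 ≤ b) (hb : b ≤ 1 / 2) (p : ℕ) (hp : 2 ≤ p) :
    E b p ≤ 4 * (((p : ℝ) ^ b - 1) / p) := by
  have hp1 : (2 : ℝ) ≤ p := by exact_mod_cast hp
  have h1 := rpow_le_sq b hb p hp
  have h2 := one_le_rpow' b hb0 p hp
  unfold E
  rw [div_le_iff₀ (by linarith)]
  have h3 : 4 * (((p : ℝ) ^ b - 1) / p) * (p - (p : ℝ) ^ b)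
      = ((p : ℝ) ^ b - 1) * (4 * (p - (p : ℝ) ^ b) / p) := by
    field_simp
  rw [h3]
  have h4 : 1 ≤ 4 * (p - (p : ℝ) ^ b) / p := by
    rw [le_div_iff₀ (by linarith)]
    linarith
  nlinarith

lemma E_eq (b : ℝ) (hb : b ≤ 1 / 2) (p : ℕ) (hp : 2 ≤ p) :
    (p : ℝ) ^ b * E b p + (p : ℝ) ^ b - 1 = p * E b p := by
  have hp1 : (2 : ℝ) ≤ p := by exact_mod_cast hp
  have h1 := rpow_le_sq b hb p hp
  have h3 : (p : ℝ) - (p : ℝ) ^ b ≠ 0 := by
    have : 0 < (p : ℝ) - (p : ℝ) ^ b := by linarith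
    exact this.ne'
  have h4 : (p - (p : ℝ) ^ b) * E b p = (p : ℝ) ^ b - 1 := by
    unfold E
    field_simp
  linarith

lemma sum_G (b : ℝ) (hb0 : 0 ≤ b) (hb : b ≤ 1 / 2) (s : Finset ℕ) (hs : ∀ p ∈ s, p.Prime) :
    ∀ N : ℕ, ∑ n ∈ Icc 1 N, G b s n ≤ (∏ p ∈ s, (1 + E b p)) * N := by
  induction s using Finset.induction_on with
  | empty =>
    intro N
    simp [G]
  | insert p s hps ih =>
    intro N
    have hp : p.Prime := hs p (Finset.mem_insert_self _ _)
    have hs' : ∀ q ∈ s, q.Prime := fun q hq => hs q (Finset.mem_insert_of_mem hq)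
    have h1 := step p hp (G b s) ((p : ℝ) ^ b) (∏ q ∈ s, (1 + E b q)) (E b p)
      (Finset.prod_nonneg (fun q hq => by
        have := E_nonneg b hb0 hb q (hs' q hq).two_le
        linarith))
      (E_nonneg b hb0 hb p hp.two_le) (one_le_rpow' b hb0 p hp.two_le)
      (E_eq b hb p hp.two_le)
      (by
        intro m
        unfold G
        apply Finset.prod_congr rfl
        intro q hq
        have hqp : q ≠ p := by
          rintro rfl
          exact hps hq
        rcases Nat.eq_zero_or_pos m with h0 | hm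
        · subst h0; simp
        · rw [Nat.factorization_mul hp.ne_zero hm.ne']
          simp only [Finsupp.coe_add, Pi.add_apply]
          rw [Nat.factorization_eq_zero_of_not_dvd (n := p) (p := q), zero_add]
          intro hd
          exact hqp ((Nat.prime_dvd_prime_iff_eq (hs' q hq) hp).1 hd))
      (ih hs') N
    have h2 : ∀ n, G b (insert p s) n = ((p : ℝ) ^ b) ^ (n.factorization p) * G b s n := by
      intro n
      unfold G
      rw [Finset.prod_insert hps]
    simp only [h2]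
    rw [Finset.prod_insert hps]
    calc _ ≤ _ := h1
      _ = _ := by ring

lemma G_smooth (b : ℝ) (w n : ℕ) (hn : 1 ≤ n) (hs : ∀ p, p.Prime → p ∣ n → p ≤ w) :
    G b ((Icc 1 w).filter Nat.Prime) n = (n : ℝ) ^ b := by
  unfold G
  have h1 : ∀ p ∈ (Icc 1 w).filter Nat.Prime, ((p : ℝ) ^ b) ^ (n.factorization p)
      = (((p : ℝ) ^ (n.factorization p)) ^ b) := by
    intro p _
    rw [← Real.rpow_natCast, ← Real.rpow_mul (by positivity), mul_comm,
      Real.rpow_mul (by positivity), Real.rpow_natCast]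
  rw [Finset.prod_congr rfl h1, Real.finsetProd_rpow _ _ (fun i _ => by positivity)]
  congr 1
  have h2 : ∏ p ∈ (Icc 1 w).filter Nat.Prime, p ^ (n.factorization p) = n := by
    conv_rhs => rw [← Nat.prod_factorization_pow_eq_self (show n ≠ 0 by omega)]
    rw [Finsupp.prod]
    symm
    apply Finset.prod_subset
    · intro p hp
      rw [Nat.support_factorization, Nat.mem_primeFactors] at hp
      rw [Finset.mem_filter, Finset.mem_Icc]
      exact ⟨⟨hp.1.one_lt.le, hs p hp.1 hp.2.1⟩, hp.1⟩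
    · intro p _ hp
      rw [Finsupp.notMem_support_iff] at hp
      rw [hp, pow_zero]
  exact_mod_cast h2

lemma mertens : ∃ C : ℝ, 0 < C ∧ ∀ w : ℕ, 2 ≤ w →
    ∑ p ∈ (Icc 1 w).filter Nat.Prime, Real.log p / p ≤ C * Real.log w := by
  obtain ⟨C, hCp, hC⟩ := Pool.Agent.Helper75.Tot.pf_M1
  have hC0 : 0 ≤ C := hCp.le
  refine ⟨C + 2, by linarith, ?_⟩
  intro w hw
  have hl2 : 0 < Real.log 2 := Real.log_pos (by norm_num)
  have hwr : (2 : ℝ) ≤ w := by exact_mod_cast hw
  have hlw : Real.log 2 ≤ Real.log w := Real.log_le_log (by norm_num) hwr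
  set n := Nat.clog 2 w with hn
  have h1 : w ≤ 2 ^ n := Nat.le_pow_clog (by norm_num) w
  have h2 : 2 ^ (n - 1) < w := Nat.pow_pred_clog_lt_self (by norm_num) (by omega)
  have h3 : ∑ p ∈ (Icc 1 w).filter Nat.Prime, Real.log p / p
      ≤ ∑ p ∈ Pool.Agent.Helper94.Tot.PN n, Real.log p / p := by
    apply Finset.sum_le_sum_of_subset_of_nonneg
    · intro p hp
      unfold Pool.Agent.Helper94.Tot.PN
      rw [Finset.mem_filter, Finset.mem_Icc] at hp ⊢
      exact ⟨⟨hp.1.1, hp.1.2.trans h1⟩, hp.2⟩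
    · intro p _ _
      positivity
  have h4 : ∑ p ∈ Pool.Agent.Helper94.Tot.PN n, Real.log p / p
      = Real.log 2 * ∑ p ∈ Pool.Agent.Helper94.Tot.PN n, Pool.Agent.Helper94.Tot.lg p / p := by
    rw [Finset.mul_sum]
    apply Finset.sum_congr rfl
    intro p _
    unfold Pool.Agent.Helper94.Tot.lg Real.logb
    field_simp
  have h5 := (abs_le.1 (hC n)).2
  have h6 : ((n : ℝ) - 1) * Real.log 2 ≤ Real.log w := by
    rcases Nat.eq_zero_or_pos n with h0 | hn0
    · rw [h0]; push_cast; nlinarith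
    · have h7 : ((2 : ℝ) ^ (n - 1)) ≤ w := by exact_mod_cast h2.le
      have h8 := Real.log_le_log (by positivity) h7
      rw [Real.log_pow] at h8
      have h9 : ((n - 1 : ℕ) : ℝ) = (n : ℝ) - 1 := by
        rw [Nat.cast_sub hn0, Nat.cast_one]
      rwa [h9] at h8
  calc _ ≤ _ := h3
    _ = _ := h4
    _ ≤ Real.log 2 * (n + C) := by
      apply mul_le_mul_of_nonneg_left _ hl2.le
      linarith
    _ = ((n : ℝ) - 1) * Real.log 2 + (1 + C) * Real.log 2 := by ring
    _ ≤ Real.log w + (1 + C) * Real.log w := by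
      apply add_le_add h6
      exact mul_le_mul_of_nonneg_left hlw (by linarith)
    _ = (C + 2) * Real.log w := by ring

lemma prod_E (C : ℝ) (hC : ∀ w : ℕ, 2 ≤ w →
    ∑ p ∈ (Icc 1 w).filter Nat.Prime, Real.log p / p ≤ C * Real.log w)
    (w : ℕ) (hw : 2 ≤ w) (t : ℝ) (ht : 0 ≤ t) (htw : 2 * t ≤ Real.log w) :
    ∏ p ∈ (Icc 1 w).filter Nat.Prime, (1 + E (t / Real.log w) p) ≤ Real.exp (4 * C * Real.exp t) := by
  have hwr : (2 : ℝ) ≤ w := by exact_mod_cast hw
  have hlw : 0 < Real.log w := Real.log_pos (by linarith)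
  have hb0 : 0 ≤ t / Real.log w := by positivity
  have hb : t / Real.log w ≤ 1 / 2 := by
    rw [div_le_iff₀ hlw]; linarith
  have h1 : ∏ p ∈ (Icc 1 w).filter Nat.Prime, (1 + E (t / Real.log w) p)
      ≤ ∏ p ∈ (Icc 1 w).filter Nat.Prime, Real.exp (E (t / Real.log w) p) := by
    apply Finset.prod_le_prod
    · intro p hp
      have hp2 : 2 ≤ p := (Finset.mem_filter.1 hp).2.two_le
      have := E_nonneg _ hb0 hb p hp2
      linarith
    · intro p _
      have := Real.add_one_le_exp (E (t / Real.log w) p)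
      linarith
  refine h1.trans ?_
  rw [← Real.exp_sum]
  apply Real.exp_le_exp.2
  have h2 : ∑ p ∈ (Icc 1 w).filter Nat.Prime, E (t / Real.log w) p
      ≤ ∑ p ∈ (Icc 1 w).filter Nat.Prime, (4 * Real.exp t / Real.log w) * (Real.log p / p) := by
    apply Finset.sum_le_sum
    intro p hp
    rw [Finset.mem_filter, Finset.mem_Icc] at hp
    have hp2 : 2 ≤ p := hp.2.two_le
    have hpr : (2 : ℝ) ≤ p := by exact_mod_cast hp2
    have hpw : (p : ℝ) ≤ w := by exact_mod_cast hp.1.2
    have hlp : 0 ≤ Real.log p := Real.log_nonneg (by linarith)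
    have hlpw : Real.log p ≤ Real.log w := Real.log_le_log (by linarith) hpw
    refine (E_le _ hb0 hb p hp2).trans ?_
    have h3 : (p : ℝ) ^ (t / Real.log w) - 1 ≤ Real.log p / Real.log w * Real.exp t := by
      have h4 : (p : ℝ) ^ (t / Real.log w) = Real.exp ((Real.log p / Real.log w) * t) := by
        rw [Real.rpow_def_of_pos (by linarith)]
        congr 1
        field_simp
      set s := Real.log p / Real.log w with hs
      have hs0 : 0 ≤ s := by positivity
      have hs1 : s ≤ 1 := by rw [hs, div_le_one hlw]; exact hlpw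
      have h5 := convexOn_exp.2 (Set.mem_univ (0 : ℝ)) (Set.mem_univ t)
        (show 0 ≤ 1 - s by linarith) hs0 (by ring)
      simp only [smul_eq_mul, mul_zero, zero_add, Real.exp_zero, mul_one] at h5
      rw [h4]
      linarith
    have hp0 : (0 : ℝ) < p := by linarith
    calc 4 * (((p : ℝ) ^ (t / Real.log w) - 1) / p)
        ≤ 4 * ((Real.log p / Real.log w * Real.exp t) / p) := by
          apply mul_le_mul_of_nonneg_left _ (by norm_num)
          exact div_le_div_of_nonneg_right h3 hp0.le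
      _ = (4 * Real.exp t / Real.log w) * (Real.log p / p) := by
          field_simp
  refine h2.trans ?_
  rw [← Finset.mul_sum]
  calc (4 * Real.exp t / Real.log w) * ∑ p ∈ (Icc 1 w).filter Nat.Prime, Real.log p / p
      ≤ (4 * Real.exp t / Real.log w) * (C * Real.log w) := by
        apply mul_le_mul_of_nonneg_left (hC w hw) (by positivity)
    _ = 4 * C * Real.exp t := by field_simp

theorem sm : StmtSM := by
  obtain ⟨C, hC0, hC⟩ := mertens
  refine ⟨4 * C, by linarith, ?_⟩
  intro H w t hw hH ht htw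
  have hwr : (2 : ℝ) ≤ w := by exact_mod_cast hw
  have hlw : 0 < Real.log w := Real.log_pos (by linarith)
  have hb0 : 0 ≤ t / Real.log w := by positivity
  have hb : t / Real.log w ≤ 1 / 2 := by
    rw [div_le_iff₀ hlw]; linarith
  have hHr : (1 : ℝ) ≤ H := by exact_mod_cast hH
  set s := (Icc 1 w).filter Nat.Prime with hs
  set b := t / Real.log w with hbdef
  have h1 := sum_G b hb0 hb s (fun p hp => (Finset.mem_filter.1 hp).2) H
  have h2 := prod_E C hC w hw t ht htw
  set A := (Icc 1 H).filter (fun h : ℕ => ∀ p, p.Prime → p ∣ h → p ≤ w) with hA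
  set A1 := A.filter (fun n : ℕ => (n : ℝ) ≤ Real.sqrt H) with hA1
  set A2 := A.filter (fun n : ℕ => ¬ ((n : ℝ) ≤ Real.sqrt H)) with hA2
  have hcard : (A.card : ℝ) = A1.card + A2.card := by
    rw [hA1, hA2]
    have := Finset.card_filter_add_card_filter_not (s := A) (fun n : ℕ => (n : ℝ) ≤ Real.sqrt H)
    exact_mod_cast this.symm
  have hc1 : (A1.card : ℝ) ≤ Real.sqrt H := by
    have hsub : A1 ⊆ Icc 1 ⌊Real.sqrt H⌋₊ := by
      intro n hn
      rw [hA1, Finset.mem_filter, hA, Finset.mem_filter, Finset.mem_Icc] at hn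
      rw [Finset.mem_Icc]
      exact ⟨hn.1.1.1, Nat.le_floor hn.2⟩
    have h3 := Finset.card_le_card hsub
    rw [Nat.card_Icc] at h3
    have h4 : (A1.card : ℝ) ≤ (⌊Real.sqrt H⌋₊ : ℝ) := by exact_mod_cast (by omega : A1.card ≤ ⌊Real.sqrt H⌋₊)
    exact h4.trans (Nat.floor_le (Real.sqrt_nonneg _))
  have hGnn : ∀ n, 0 ≤ G b s n := by
    intro n
    unfold G
    positivity
  have hc2 : (A2.card : ℝ) * Real.exp (t * Real.log H / (2 * Real.log w))
      ≤ H * Real.exp (4 * C * Real.exp t) := by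
    calc (A2.card : ℝ) * Real.exp (t * Real.log H / (2 * Real.log w))
        = ∑ n ∈ A2, Real.exp (t * Real.log H / (2 * Real.log w)) := by
          rw [Finset.sum_const, nsmul_eq_mul]
      _ ≤ ∑ n ∈ A2, G b s n := by
          apply Finset.sum_le_sum
          intro n hn
          rw [hA2, Finset.mem_filter, hA, Finset.mem_filter, Finset.mem_Icc] at hn
          rw [hs, G_smooth b w n hn.1.1.1 hn.1.2]
          have hn1 : (1 : ℝ) ≤ n := by exact_mod_cast hn.1.1.1
          have hn2 : Real.sqrt H ≤ n := (not_le.1 hn.2).le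
          rw [Real.rpow_def_of_pos (by linarith)]
          apply Real.exp_le_exp.2
          have h5 : Real.log H / 2 ≤ Real.log n := by
            rw [← Real.log_sqrt (by linarith)]
            exact Real.log_le_log (Real.sqrt_pos.2 (by linarith)) hn2
          calc t * Real.log H / (2 * Real.log w) = (Real.log H / 2) * b := by
                rw [hbdef]; field_simp
            _ ≤ Real.log n * b := mul_le_mul_of_nonneg_right h5 hb0
      _ ≤ ∑ n ∈ Icc 1 H, G b s n := by
          apply Finset.sum_le_sum_of_subset_of_nonneg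
          · intro n hn
            rw [hA2, Finset.mem_filter, hA, Finset.mem_filter] at hn
            exact hn.1.1
          · intro n _ _
            exact hGnn n
      _ ≤ (∏ p ∈ s, (1 + E b p)) * H := h1
      _ ≤ Real.exp (4 * C * Real.exp t) * H := by
          apply mul_le_mul_of_nonneg_right h2 (by linarith)
      _ = _ := by ring
  have hc3 : (A2.card : ℝ) ≤ H * Real.exp (4 * C * Real.exp t - t * Real.log H / (2 * Real.log w)) := by
    rw [Real.exp_sub, ← mul_div_assoc, le_div_iff₀ (Real.exp_pos _)]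
    exact hc2
  rw [hcard]
  linarith

end Pool.Agent.Helper31.LG
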